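import Pool.Agent.Helper3.M.Gen
import Pool.Agent.Helper1.ET4.VV

/-!
# Block M: assembly
-/

namespace Pool.Agent.Helper3.M

open Finset Pool.Agent.Helper27.T4 Pool.Agent.Helper5.ET Pool.Agent.Helper53.TF
open Pool.Agent.Helper69.ET (B1r B2r win_VV)

theorem bkey_not_mem_KF (s s' t v : ℕ) (K : Finset Key) : bkey t v ∉ KF s s' K := by
  intro h
  unfold KF at h
  rw [mem_filter] at h
  rcases h.2 with ⟨_, f, _, hf⟩ | ⟨_, f, _, hf⟩
  · have := f.isLt
    simp only [bkey] at hf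
    omega
  · have := f.isLt
    simp only [bkey] at hf
    omega

theorem VV_congr (s : ℕ) (w w' : Key → ℕ)
    (h : ∀ v ∈ Ico (vlo s) (vhi s), w (bkey s v) = w' (bkey s v)) : VV s w = VV s w' := by
  unfold VV
  apply filter_congr
  intro v hv
  rw [h v hv]

theorem VV_glue (s s' t : ℕ) (K : Finset Key) (hK : keysOf t ⊆ K) (w0 w : Key → ℕ) :
    VV t (glue (K \ KF s s' K) w0 w) = VV t w0 := by
  apply VV_congr
  intro v hv
  apply glue_mem
  rw [mem_sdiff]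
  exact ⟨hK (Pool.Agent.Helper1.ET4.bkey_mem t v (mem_Ico.mp hv).2), bkey_not_mem_KF s s' t v K⟩

theorem Rp_eq (s s' : ℕ) (w : Key → ℕ) (n : ℕ) :
    Rp s s' w n = RpV s s' w (VV s w) (VV s' w) n := rfl

/-- **BLOCK M** from the facts about the orders -/
theorem meso_block_of (hfacts : ∃ s0 : ℕ, ∀ s s' : ℕ, s0 ≤ s' → s' + 2 ≤ s →
    (sl s : ℝ) - sl s' ≤ 1 / 100 * sl s → ∃ b f1 f0, Meso s s' b f1 f0) :
    ∃ (C : ℝ) (s0 : ℕ), ∀ s s' : ℕ, s0 ≤ s' → s' + 2 ≤ s →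
    (sl s : ℝ) - sl s' ≤ 1 / 100 * sl s →
    ∀ K : Finset Key, keysOf s ⊆ K → keysOf s' ⊆ K →
      PrLe K (fun w => ∃ n, C * ((sl s : ℝ) / ((sl s : ℝ) - sl s')) < Rp s s' w n)
        (Real.exp (-(Real.sqrt (sl s)))) := by
  obtain ⟨sA, hA⟩ := hfacts
  obtain ⟨R, sW, hwin⟩ := win_VV
  obtain ⟨C, sG, hgen⟩ := meso_gen R
  refine ⟨C, max sA (max sW sG), ?_⟩
  intro s s' hs hss hδ K hK hK'
  have hs1 : sA ≤ s' := le_trans (le_max_left _ _) hs
  have hs2 : sW ≤ s' := le_trans (le_trans (le_max_left _ _) (le_max_right _ _)) hs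
  have hs3 : sG ≤ s' := le_trans (le_trans (le_max_right _ _) (le_max_right _ _)) hs
  obtain ⟨b, f1, f0, h⟩ := hA s s' hs1 hss hδ
  have h2 : sl s ≤ 2 * sl s' := by
    have h3 : (sl s : ℝ) ≤ 2 * sl s' := by
      have : (0 : ℝ) ≤ sl s := Nat.cast_nonneg _
      linarith
    exact_mod_cast h3
  have hw := hwin s s' b f1 f0 hs2 h h2 K hK hK'
  set A : (Key → ℕ) → Prop := fun w => ¬ ∃ B1 B2 : ℕ, (B1 : ℝ) ≤ B1r s s' ∧
    (B2 : ℝ) ≤ B2r s s' f1 ∧ Win s s' f1 (VV s w) (VV s' w) B1 B2 R with hAdef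
  set B : (Key → ℕ) → Prop := fun w => ∃ n, C * ((sl s : ℝ) / ((sl s : ℝ) - sl s')) <
    Rp s s' w n with hBdef
  have hsub : K \ KF s s' K ⊆ K := sdiff_subset
  have hKF : K \ (K \ KF s s' K) = KF s s' K := by
    apply Finset.sdiff_sdiff_eq_self
    exact filter_subset _ _
  have hcond : PrLe K (fun w => B w ∧ ¬ A w) (0 + Real.exp (-(Real.sqrt (sl s))) / 2) := by
    refine PrLe_cond_bad hsub (A := fun _ => False) (by positivity)
      (PrLe_false (fun _ _ h => h) le_rfl) ?_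
    intro r0 hr0 _
    rw [hKF]
    have hV : ∀ w, VV s (glue (K \ KF s s' K) (ext (K \ KF s s' K) r0) w) =
        VV s (ext (K \ KF s s' K) r0) := fun w => VV_glue s s' s K hK _ w
    have hV' : ∀ w, VV s' (glue (K \ KF s s' K) (ext (K \ KF s s' K) r0) w) =
        VV s' (ext (K \ KF s s' K) r0) := fun w => VV_glue s s' s' K hK' _ w
    by_cases hAr : A (ext (K \ KF s s' K) r0)
    · refine PrLe_false ?_ (by positivity)
      rintro r _ ⟨_, hnA⟩
      apply hnA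
      rw [hAdef] at hAr ⊢
      dsimp only at hAr ⊢
      rw [hV, hV']
      exact hAr
    · have hAr' : ∃ B1 B2 : ℕ, (B1 : ℝ) ≤ B1r s s' ∧ (B2 : ℝ) ≤ B2r s s' f1 ∧
          Win s s' f1 (VV s (ext (K \ KF s s' K) r0)) (VV s' (ext (K \ KF s s' K) r0)) B1 B2 R := by
        rw [hAdef] at hAr
        exact not_not.mp hAr
      obtain ⟨B1, B2, hB1, hB2, hW⟩ := hAr'
      have hg := hgen s s' b f1 f0 hs3 hδ h _ _ B1 B2 hB1 hB2 hW K hK hK'
        (ext (K \ KF s s' K) r0)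
      refine PrLe_mono ?_ le_rfl hg
      rintro r _ ⟨⟨n, hn⟩, _⟩
      refine ⟨n, ?_⟩
      rw [Rp_eq, hV, hV'] at hn
      exact hn
  have hor := PrLe_or hw hcond
  refine PrLe_mono ?_ (by linarith) hor
  intro r _ hBr
  by_cases hAr : A (ext K r)
  · exact Or.inl hAr
  · exact Or.inr ⟨hBr, hAr⟩

end Pool.Agent.Helper3.M
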