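import Pool.Agent.Helper5.ET.Defs
import Pool.Agent.Helper53.TF.Cond
import Pool.Agent.Helper3.T4.Decode

/-!
# Block M (meso pairs): definitions

`l = sl s`, `l' = sl s'`, `e = se s`, `e' = se s'`.  `[l', b)` belongs to the family `f1`,
`[b, l)` to the family `f0`.
-/

namespace Pool.Agent.Helper3.M

open Finset Pool.Agent.Helper27.T4 Pool.Agent.Helper5.ET

/-- the set of the state `s` with the window set `V` -/
noncomputable def AV (s : ℕ) (w : Key → ℕ) (V : Finset ℕ) : Finset ℕ :=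
  (XX s ×ˢ V).image (fun q => el s w q.1 q.2)

/-- number of representations, general windows -/
noncomputable def RpV (s s' : ℕ) (w : Key → ℕ) (V V' : Finset ℕ) (n : ℕ) : ℕ :=
  ((AV s w V ×ˢ AV s' w V').filter (fun q => q.1 + q.2 = n)).card

/-- the families which grow between `l'` and `l` -/
def Pg (s s' : ℕ) : Finset (Fin 3) := univ.filter (fun f => cnt f (sl s') < cnt f (sl s))

/-- the static families which are hashed by a growing family in the state `s` -/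
def RR (s s' : ℕ) : Finset (Fin 3) :=
  univ.filter (fun f => f ∉ Pg s s' ∧ ¬ Disjoint (pre (sl s) f) (Pg s s'))

/-- the static families which are hashed by a growing family in the state `s'` -/
def RR' (s s' : ℕ) : Finset (Fin 3) :=
  univ.filter (fun f => f ∉ Pg s s' ∧ ¬ Disjoint (pre (sl s') f) (Pg s s'))

/-- the facts about the orders used in block M -/
structure Meso (s s' b : ℕ) (f1 f0 : Fin 3) : Prop where
  hss : s' + 2 ≤ s
  lb : sl s' < b
  bl : b ≤ sl s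
  own1 : ∀ t, sl s' ≤ t → t < b → own t = f1
  own0 : ∀ t, b ≤ t → t < sl s → own t = f0
  ne : f0 ≠ f1
  node : b = sl s ∨ ∃ j, b = tau j
  rank : ∀ f, ∀ g ∈ pre (sl s) f ∪ pre (sl s') f, rk (ordK (sl s)) g < rk (ordK (sl s)) f
  rank01 : b < sl s → rk (ordK (sl s)) f0 < rk (ordK (sl s)) f1
  sub : RR s s' ⊆ RR' s s'
  nonempty : (RR s s').Nonempty
  preR : ∀ f ∈ RR s s', Pg s s' ⊆ pre (sl s) f
  preR' : ∀ f ∈ RR' s s', Pg s s' ⊆ pre (sl s') f
  statR : ∀ f ∈ RR' s s', cnt f (se s) = cnt f (sl s')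
  off : ∀ f ∉ RR' s s', ∀ g ∈ pre (sl s) f ∪ pre (sl s') f, g ∉ RR' s s'
  grow : ∀ f, cnt f (se s) ≤ 2 * cnt f (sl s') + 1

/-- `((x, v), (x', v'))` -/
abbrev Hit : Type := ((Fin 3 → ℕ) × ℕ) × ((Fin 3 → ℕ) × ℕ)

/-- the hits of `n` -/
noncomputable def Hits (s s' : ℕ) (w : Key → ℕ) (V V' : Finset ℕ) (n : ℕ) : Finset Hit :=
  ((XX s ×ˢ V) ×ˢ (XX s' ×ˢ V')).filter
    (fun h => el s w h.1.1 h.1.2 + el s' w h.2.1 h.2.2 = n)

/-- pairwise distinct keys on both sides -/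
def Free (s s' : ℕ) (T : Finset Hit) : Prop :=
  ∀ h ∈ T, ∀ h2 ∈ T, h ≠ h2 →
    mask (Pg s s') h.1.1 ≠ mask (Pg s s') h2.1.1 ∧ mask (Pg s s') h.2.1 ≠ mask (Pg s s') h2.2.1

/-- the fresh keys -/
def KF (s s' : ℕ) (K : Finset Key) : Finset Key :=
  K.filter (fun k => (k.1 = s ∧ ∃ f ∈ RR s s', k.2.1 = f.val) ∨
    (k.1 = s' ∧ ∃ f ∈ RR' s s', k.2.1 = f.val))

/-- a number which bounds all multiplicities -/
def C0 : ℕ := 10 ^ 20

/-- digits of the extension region of the lower state -/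
def QQ (s' : ℕ) : ℕ := Nj (se s') / Nj (sl s')

/-- number of parameters of the old family -/
def II (s s' : ℕ) (f1 : Fin 3) : ℕ := pr f1 ^ ((cnt f1 (sl s) - cnt f1 (sl s')) / 2)

/-- number of parameters of the new family -/
def II1 (s s' : ℕ) (f1 : Fin 3) : ℕ :=
  ∏ f ∈ univ.erase f1, pr f ^ ((cnt f (sl s) - cnt f (sl s')) / 2)

/-- length of the window of `v` -/
def LL (s s' : ℕ) : ℕ := (2 * Nj (se s) + Nj (sk (s' + 1))) / Nj (sl s) + 1

/-- (P1), (P2), (P3) for window sets `V`, `V'` -/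
structure Win (s s' : ℕ) (f1 : Fin 3) (V V' : Finset ℕ) (B1 B2 R : ℕ) : Prop where
  sub : V ⊆ Ico (vlo s) (vhi s)
  sub' : V' ⊆ Ico (vlo s') (vhi s')
  p1 : ∀ a, (V.filter (fun v => a ≤ v ∧ v < a + LL s s')).card ≤ B1
  p2 : ∀ α E, E.Coprime (pr f1) →
    ((range (II s s' f1) ×ˢ V').filter (fun q => q.2 % QQ s' = (α + E * q.1) % QQ s')).card ≤ B2
  p3 : ∀ M, ((V ×ˢ V').filter (fun q => Nj (sl s) / Nj (sl s') * q.1 + q.2 = M)).card ≤ R

/-- the data: a hit together with the values `y`, `y'` of the two codes; the components of `y`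
off `RR` and of `y'` off `RR'` are those given by the keys `w` -/
noncomputable def Dat (s s' : ℕ) (w : Key → ℕ) (V V' : Finset ℕ) (n : ℕ) :
    Finset (Hit × (ℕ × ℕ)) :=
  (((XX s ×ˢ V) ×ˢ (XX s' ×ˢ V')) ×ˢ (range (Nj (se s)) ×ˢ range (Nj (se s')))).filter
    (fun d => (d.2.1 + Nj (sl s) * d.1.1.2) + (d.2.2 + Nj (sl s') * d.1.2.2) = n ∧
      (∀ f ∉ RR s s', ((d.2.1 : ℕ) : ZMod (pr f ^ av (se s) f)) = cmp s w d.1.1.1 f) ∧
      ∀ f ∉ RR' s s', ((d.2.2 : ℕ) : ZMod (pr f ^ av (se s') f)) = cmp s' w d.1.2.1 f)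

/-- the probability of prescribed values of the fresh keys of one hit -/
noncomputable def om (s s' : ℕ) : ℝ :=
  (∏ f ∈ RR s s', ((pr f : ℝ) ^ cnt f (se s))⁻¹) *
    ∏ f ∈ RR' s s', ((pr f : ℝ) ^ cnt f (se s'))⁻¹

/-- `M_R` -/
noncomputable def MR (s s' : ℕ) : ℝ := ∏ f ∈ RR s s', (pr f : ℝ) ^ cnt f (se s)

end Pool.Agent.Helper3.M
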