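import Pool.Agent.Helper3.M.Block
import Pool.Agent.Helper39.ET.MesoA

/-!
# Block M: final statement
-/

namespace Pool.Agent.Helper3.M

open Finset Pool.Agent.Helper5.ET

/-- **BLOCK M** -/
theorem meso_block : ∃ (C : ℝ) (s0 : ℕ), ∀ s s' : ℕ, s0 ≤ s' → s' + 2 ≤ s →
    (sl s : ℝ) - sl s' ≤ 1 / 100 * sl s →
    ∀ K : Finset Key, keysOf s ⊆ K → keysOf s' ⊆ K →
      PrLe K (fun w => ∃ n, C * ((sl s : ℝ) / ((sl s : ℝ) - sl s')) < Rp s s' w n)
        (Real.exp (-(Real.sqrt (sl s)))) :=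
  meso_block_of Pool.Agent.Helper39.ET.MesoA.meso_facts

end Pool.Agent.Helper3.M
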