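import Pool.Agent.Helper3.M.Defs
import Pool.Agent.Helper27.T4.Sch
import Pool.Agent.Helper69.ET.Prop

/-!
# Block M: numerics of the union bound
-/

namespace Pool.Agent.Helper3.M

open Finset Pool.Agent.Helper27.T4 Pool.Agent.Helper5.ET

theorem half_le_sl (s : ℕ) : s / 2 ≤ sl s := tau_strictMono.le_apply

theorem sg_large (D : ℝ) : ∃ s0 : ℕ, ∀ s : ℕ, s0 ≤ s → D ≤ (sg s : ℝ) := by
  obtain ⟨N, hN⟩ := exists_nat_gt ((2 * |D| + 1) ^ 2)
  refine ⟨2 * N, fun s hs => ?_⟩
  by_contra hcon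
  push Not at hcon
  have h1 : N ≤ sl s := le_trans (by omega) (half_le_sl s)
  have h2 : (N : ℝ) ≤ sl s := by exact_mod_cast h1
  have h3 := Pool.Agent.Helper69.ET.sl_le_sg s
  have h4 : (0 : ℝ) ≤ sg s := Nat.cast_nonneg _
  have h5 : (sg s : ℝ) ≤ |D| := hcon.le.trans (le_abs_self D)
  have h6 : (2 * (sg s : ℝ) + 1) ^ 2 ≤ (2 * |D| + 1) ^ 2 :=
    pow_le_pow_left₀ (by linarith) (by linarith) 2
  linarith

theorem num (C' : ℝ) (hC' : 0 < C') : ∃ s0 : ℕ, ∀ s s' : ℕ, s0 ≤ s' → s' + 2 ≤ s →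
    (sl s : ℝ) - sl s' ≤ 1 / 100 * sl s →
    ∃ m : ℕ, (m : ℝ) ≤ 121 * ((sl s : ℝ) / ((sl s : ℝ) - sl s')) ∧
      ∀ S : ℝ, 0 ≤ S → S ≤ C' * Real.exp (-(((sl s : ℝ) - sl s') / 2)) →
        (2 * Nj (sk (s + 1)) : ℝ) * S ^ (m + 1) ≤ Real.exp (-(Real.sqrt (sl s))) / 2 := by
  obtain ⟨s0, hs0⟩ := sg_large (4 * Real.log C')
  refine ⟨s0, fun s s' h1 h2 h3 => ?_⟩
  have hl : (sg s' : ℝ) ≤ (sl s : ℝ) - sl s' := by
    have := sl_add_le h2
    have h' : ((sl s' + sg s' : ℕ) : ℝ) ≤ sl s := by exact_mod_cast this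
    push_cast at h'
    linarith
  have hsg : (1 : ℝ) ≤ sg s' := by
    have := sg_ge s'
    have h' : (1 : ℕ) ≤ sg s' := le_trans (by norm_num) this
    exact_mod_cast h'
  set l : ℝ := (sl s : ℝ) with hldef
  set δ : ℝ := l - sl s' with hδ
  have hδpos : 0 < δ := by linarith
  have hsl' : (0 : ℝ) ≤ sl s' := Nat.cast_nonneg _
  have hδl : δ ≤ l := by linarith
  have hlpos : 0 < l := by linarith
  have hl64 : (100 : ℝ) ≤ l := by
    have := sl_ge s
    have h' : (100 : ℕ) ≤ sl s := le_trans (by norm_num) this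
    rw [hldef]
    exact_mod_cast h'
  refine ⟨⌈120 * (l / δ)⌉₊, ?_, ?_⟩
  · have h4 : 1 ≤ l / δ := (one_le_div hδpos).mpr hδl
    have h5 := (Nat.ceil_lt_add_one (show (0 : ℝ) ≤ 120 * (l / δ) by positivity)).le
    linarith
  · intro S hS0 hS
    set m := ⌈120 * (l / δ)⌉₊ with hm
    have h4 : Real.log C' ≤ δ / 4 := by
      have := hs0 s' h1
      linarith
    have h5 : S ≤ Real.exp (-(δ / 4)) := by
      refine hS.trans ?_
      calc C' * Real.exp (-(δ / 2)) = Real.exp (Real.log C') * Real.exp (-(δ / 2)) := by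
            rw [Real.exp_log hC']
        _ = Real.exp (Real.log C' + -(δ / 2)) := by rw [Real.exp_add]
        _ ≤ Real.exp (-(δ / 4)) := by
            apply Real.exp_le_exp.mpr
            linarith
    have h6 : (120 * (l / δ)) ≤ m := Nat.le_ceil _
    have h7 : 30 * l ≤ (m + 1 : ℕ) * (δ / 4) := by
      have h8 : 120 * l ≤ m * δ := by
        have := mul_le_mul_of_nonneg_right h6 hδpos.le
        have e : 120 * (l / δ) * δ = 120 * l := by
          field_simp
        linarith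
      push_cast
      nlinarith
    have h8 : S ^ (m + 1) ≤ Real.exp (-(30 * l)) := by
      calc S ^ (m + 1) ≤ (Real.exp (-(δ / 4))) ^ (m + 1) := pow_le_pow_left₀ hS0 h5 _
        _ = Real.exp ((m + 1 : ℕ) * (-(δ / 4))) := by rw [← Real.exp_nat_mul]
        _ ≤ Real.exp (-(30 * l)) := by
            apply Real.exp_le_exp.mpr
            linarith
    have h9 : (Nj (sk (s + 1)) : ℝ) ≤ Real.exp (15 * l) := by
      have a1 := Pool.Agent.Helper69.ET.Nj_le_exp (Nat.zero_le (sk (s + 1)))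
      have a2 : (Nj 0 : ℝ) = 1 := by
        have : Nj 0 = 1 := by
          unfold Nj Pool.Agent.Helper27.T4.NN
          apply Finset.prod_eq_one
          intro f _
          simp [av, cnt]
        exact_mod_cast this
      rw [a2, mul_one] at a1
      refine a1.trans (Real.exp_le_exp.mpr ?_)
      have a3 : sk (s + 1) ≤ sl s + 4 * sg s := sk_succ_le s
      have a4 := sg_small s
      have a5 : (sk (s + 1) : ℝ) ≤ sl s + 4 * sg s := by exact_mod_cast a3
      have a6 : (sg s : ℝ) * 2 ^ 10 ≤ sl s := by exact_mod_cast a4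
      norm_num at a6 ⊢
      linarith
    have h10 : (2 * Nj (sk (s + 1)) : ℝ) * S ^ (m + 1) ≤
        (2 * Real.exp (15 * l)) * Real.exp (-(30 * l)) := by
      apply mul_le_mul _ h8 (pow_nonneg hS0 _) (by positivity)
      linarith
    refine h10.trans ?_
    have h11 : (2 * Real.exp (15 * l)) * Real.exp (-(30 * l)) = 2 * Real.exp (-(15 * l)) := by
      rw [mul_assoc, ← Real.exp_add]
      ring_nf
    rw [h11]
    have h12 : Real.sqrt l ≤ l := by
      apply Real.sqrt_le_iff.mpr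
      refine ⟨hlpos.le, ?_⟩
      nlinarith
    have h13 : (4 : ℝ) ≤ Real.exp (14 * l) := by
      have := Real.add_one_le_exp (14 * l)
      linarith
    have h14 : Real.exp (-(15 * l)) * 4 ≤ Real.exp (-(Real.sqrt l)) := by
      calc Real.exp (-(15 * l)) * 4 ≤ Real.exp (-(15 * l)) * Real.exp (14 * l) :=
            mul_le_mul_of_nonneg_left h13 (Real.exp_pos _).le
        _ = Real.exp (-l) := by
            rw [← Real.exp_add]
            ring_nf
        _ ≤ Real.exp (-(Real.sqrt l)) := by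
            apply Real.exp_le_exp.mpr
            linarith
    linarith

end Pool.Agent.Helper3.M
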