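import Pool.Agent.Helper54.M.Lin
import Pool.Agent.Helper3.M.Num
import Pool.Agent.Helper63.ET.MesoPrice
import Pool.Agent.Helper69.ET.WinVV
import Pool.Agent.Helper84.ET4.M1b
import Pool.Agent.Helper8.MB.M2

/-!
# Block M: the union bound for general windows
-/

namespace Pool.Agent.Helper3.M

open Finset Pool.Agent.Helper27.T4 Pool.Agent.Helper5.ET Pool.Agent.Helper53.TF
open Pool.Agent.Helper8.MB (YY)
open Pool.Agent.Helper69.ET (B1r B2r NjR_pos)

variable {s s' b : ℕ} {f1 f0 : Fin 3}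

theorem sixty {s s' : ℕ} (hδ : (sl s : ℝ) - sl s' ≤ 1 / 100 * sl s) :
    60 * (sl s - sl s') ≤ sl s := by
  have h1 : (100 : ℝ) * sl s ≤ 100 * sl s' + sl s := by linarith
  have h2 : 100 * sl s ≤ 100 * sl s' + sl s := by exact_mod_cast h1
  omega

theorem gen_price (h : Meso s s' b f1 f0) (h0 : bb 3 ≤ sl s)
    (hδ : (sl s : ℝ) - sl s' ≤ 1 / 100 * sl s) {B1 B2 : ℕ} (hB1 : (B1 : ℝ) ≤ B1r s s')
    (hB2 : (B2 : ℝ) ≤ B2r s s' f1) :
    (II1 s s' f1 : ℝ) * B1 * B2 * ((Nj (se s') : ℝ) / Nj (se s) + 1 / MR s s') ≤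
      200 * Real.exp (-((sl s : ℝ) - sl s') / 2) := by
  have hl := sixty hδ
  have hf1 : own (sl s') = f1 := h.own1 _ le_rfl h.lb
  obtain ⟨b', hb, hb1, hb2, hb3, hb4⟩ := Pool.Agent.Helper63.ET.border_cases h.hss hl
  obtain ⟨hI, hI1⟩ := Pool.Agent.Helper63.ET.I_sq hb1 hb2 hb3 hb4
  have hI1' := hI1 (univ.erase f1) (by rw [hf1]; simp)
  have hII : Pool.Agent.Helper69.ET.II s s' = II s s' f1 := by
    unfold Pool.Agent.Helper69.ET.II II
    rw [hf1]
  rw [hII] at hI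
  refine Pool.Agent.Helper63.ET.meso_num h.hss hb (I := (II s s' f1 : ℝ)) (Nat.cast_nonneg _)
    (Nat.cast_nonneg _) ?_ (by exact_mod_cast hI) (Nat.cast_nonneg _) ?_ (Nat.cast_nonneg _) ?_ ?_
  · unfold II1
    exact_mod_cast hI1'
  · refine hB1.trans ?_
    unfold B1r
    have hLL : (LL s s' : ℝ) ≤ (2 * Nj (se s) + Nj (sk (s' + 1))) / Nj (sl s) + 1 := by
      unfold LL
      push_cast
      have := Nat.cast_div_le (α := ℝ) (m := 2 * Nj (se s) + Nj (sk (s' + 1))) (n := Nj (sl s))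
      push_cast at this
      linarith
    have := div_le_div_of_nonneg_right hLL (show (0 : ℝ) ≤ 2 ^ lev (vlo s) by positivity)
    linarith
  · refine hB2.trans ?_
    unfold B2r
    apply mul_le_mul_of_nonneg_left _ (Real.exp_pos _).le
    have : (QQ s' : ℝ) = ((Nj (se s') / Nj (sl s') : ℕ) : ℝ) := rfl
    rw [this]
    linarith
  · obtain ⟨f, hf⟩ := h.nonempty
    have hee : se s' ≤ se s := se_mono (by have := h.hss; omega)
    refine Pool.Agent.Helper63.ET.R_bound hee hf ?_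
    have h1 : sl s ≤ 11 * cnt f (sl s) := Pool.Agent.Helper63.ET.cnt_ge h0 f
    have h2 : cnt f (sl s) ≤ cnt f (se s) := Pool.Agent.Helper69.ET.cnt_mono f (sl_lt_se s).le
    have h3 : se s ≤ sl s + 4 * sg s := by
      have a1 := se_lt_sk s
      have a2 := sk_succ_le s
      have a3 := sk_add_le_succ s
      omega
    have h4 := sg_small s
    have h5 := sl_lt_se s'
    omega

/-- (H): general windows -/
theorem meso_gen (R : ℕ) : ∃ (C : ℝ) (s0 : ℕ), ∀ s s' b f1 f0, s0 ≤ s' →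
    (sl s : ℝ) - sl s' ≤ 1 / 100 * sl s → Meso s s' b f1 f0 →
    ∀ V V' : Finset ℕ, ∀ B1 B2 : ℕ, (B1 : ℝ) ≤ B1r s s' → (B2 : ℝ) ≤ B2r s s' f1 →
      Win s s' f1 V V' B1 B2 R →
    ∀ K : Finset Key, keysOf s ⊆ K → keysOf s' ⊆ K → ∀ w0 : Key → ℕ,
      PrLe (KF s s' K) (fun w => ∃ n, C * ((sl s : ℝ) / ((sl s : ℝ) - sl s')) <
        RpV s s' (glue (K \ KF s s' K) w0 w) V V' n) (Real.exp (-(Real.sqrt (sl s))) / 2) := by
  have hC0 : (0 : ℝ) < C0 := by unfold C0; positivity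
  obtain ⟨sN, hnum⟩ := num (200 * C0) (by positivity)
  refine ⟨2 * C0 * R * 121, max (2 * bb 3) sN, ?_⟩
  intro s s' b f1 f0 hs hδ h V V' B1 B2 hB1 hB2 hW K hK hK' w0
  have hs1 : 2 * bb 3 ≤ s' := le_trans (le_max_left _ _) hs
  have hs3 : sN ≤ s' := le_trans (le_max_right _ _) hs
  have h3 : bb 3 ≤ sl s := by
    have h4 := half_le_sl s
    have h5 := h.hss
    omega
  obtain ⟨m, hm, hmS⟩ := hnum s s' hs3 h.hss hδ
  set S : ℝ := C0 * (II1 s s' f1 * B1 * B2 * ((Nj (se s') : ℝ) / Nj (se s) + 1 / MR s s'))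
    with hSdef
  have hN1 : (0 : ℝ) < Nj (se s') := NjR_pos _
  have hN2 : (0 : ℝ) < Nj (se s) := NjR_pos _
  have hMR : (0 : ℝ) ≤ 1 / MR s s' := by
    unfold MR
    positivity
  have hS0 : 0 ≤ S := by
    rw [hSdef]
    positivity
  have hSle : S ≤ 200 * C0 * Real.exp (-(((sl s : ℝ) - sl s') / 2)) := by
    have h1 := mul_le_mul_of_nonneg_left (gen_price h h3 hδ hB1 hB2) hC0.le
    have e : (-(((sl s : ℝ) - sl s') / 2)) = (-((sl s : ℝ) - sl s') / 2) := by ring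
    rw [e]
    linarith
  have hdat : ∀ n, ((YY s s' w0 (RR s s') (RR' s s') V V' n).card : ℝ) ≤
      S * ((MM pr (av (se s)) (RR s s') : ℝ) * MM pr (av (se s')) (RR' s s')) := by
    intro n
    have h2 := Pool.Agent.Helper54.M.data_count h w0 V V' B1 B2 R hW n
    have h4 : (MM pr (av (se s)) (RR s s') : ℝ) = MR s s' := by
      unfold MR MM av
      push_cast
      rfl
    have h5 : (C0 * II1 s s' f1 * B1 * B2 : ℝ) *
        ((Nj (se s') : ℝ) / Nj (se s) + ((MM pr (av (se s)) (RR s s') : ℝ))⁻¹) = S := by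
      rw [hSdef, h4]; ring
    rwa [h5] at h2
  have hfin := Pool.Agent.Helper8.MB.m2 h K hK hK' w0 V V' hW.sub hW.sub' S hdat m
  refine PrLe_mono ?_ (hmS S hS0 hSle) hfin
  intro r _ hex
  obtain ⟨n, hn⟩ := hex
  refine ⟨n, Pool.Agent.Helper84.ET.exists_free h _ V V' R n m (fun M => hW.p3 M) ?_⟩
  have h1 : (2 * C0 * R * m : ℝ) ≤ 2 * C0 * R * 121 * ((sl s : ℝ) / ((sl s : ℝ) - sl s')) := by
    calc (2 * C0 * R * m : ℝ) ≤ 2 * C0 * R * (121 * ((sl s : ℝ) / ((sl s : ℝ) - sl s'))) := by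
          apply mul_le_mul_of_nonneg_left hm
          positivity
      _ = _ := by ring
  have h2 := lt_of_le_of_lt h1 hn
  exact_mod_cast h2

end Pool.Agent.Helper3.M
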